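import Pool.Agent.Helper39.TW.Lib

/-! `(3.1)` and `(3.2)`. -/

namespace TwoWalk

open Finset

variable {V : Type} [DecidableEq V] {G : SimpleGraph V}

/-- the base case of `(3.1)`: `c` is a neighbour of `a` -/
lemma G2_base {S : Finset V} {a c : V} (hS : NC G S) (h3 : 3 ≤ S.card) (ha : a ∈ S) (hc : c ∈ S)
    (hac : a ≠ c) (hadj : G.Adj a c) :
    ∃ K ⊆ S, a ∉ K ∧ c ∉ K ∧ Conn G K ∧ (∃ k ∈ K, G.Adj a k) ∧ (∃ k ∈ K, G.Adj c k) ∧
      Conn G (S \ K) := by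
  have hne : ((S.erase a).erase c).Nonempty := by
    rw [← card_pos, card_erase_of_mem (mem_erase.2 ⟨hac.symm, hc⟩), card_erase_of_mem ha]
    omega
  obtain ⟨x, hx⟩ := hne
  obtain ⟨K, hK, -⟩ := exists_comp (G := G) hx
  have hKS : K ⊆ S := hK.subset.trans ((erase_subset _ _).trans (erase_subset _ _))
  have haK : a ∉ K := fun h => (mem_erase.1 (mem_erase.1 (hK.subset h)).2).1 rfl
  have hcK : c ∉ K := fun h => (mem_erase.1 (hK.subset h)).1 rfl
  refine ⟨K, hKS, haK, hcK, hK.conn, ?_, ?_, ?_⟩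
  · obtain ⟨e, he, v, hv, hvK, hvc, hev⟩ := hS.exists_adj hKS hK.nonempty hcK ⟨a, ha, haK, hac⟩
    by_cases hva : v = a
    · exact ⟨e, he, hva ▸ hev.symm⟩
    · exact absurd (hK.mem_of_adj he (mem_erase.2 ⟨hvc, mem_erase.2 ⟨hva, hv⟩⟩) hev) hvK
  · obtain ⟨e, he, v, hv, hvK, hva, hev⟩ := hS.exists_adj hKS hK.nonempty haK
      ⟨c, hc, hcK, hac.symm⟩
    by_cases hvc : v = c
    · exact ⟨e, he, hvc ▸ hev.symm⟩
    · exact absurd (hK.mem_of_adj he (mem_erase.2 ⟨hvc, mem_erase.2 ⟨hva, hv⟩⟩) hev) hvK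
  · have hA : Conn G {a, c} := by
      have := (conn_singleton (G := G) c).insert (mem_singleton_self c) hadj.symm
      simpa using this
    refine conn_of_attach hA (fun v hv => ?_) (fun E hE => ?_)
    · rw [mem_insert, mem_singleton] at hv
      rcases hv with rfl | rfl
      · exact mem_sdiff.2 ⟨ha, haK⟩
      · exact mem_sdiff.2 ⟨hc, hcK⟩
    · have hES : E ⊆ S := hE.subset.trans (sdiff_subset.trans sdiff_subset)
      have haE : a ∉ E := fun h => (mem_sdiff.1 (hE.subset h)).2 (mem_insert_self _ _)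
      obtain ⟨e, he, v, hv, hev⟩ := hS.conn.2 E hES hE.nonempty (fun h => haE (h ▸ ha))
      rw [mem_sdiff] at hv
      refine ⟨e, he, v, ?_, hev⟩
      by_contra hvac
      have heE := mem_sdiff.1 (hE.subset he)
      rw [mem_insert, mem_singleton, not_or] at hvac
      by_cases hvK : v ∈ K
      · have heac := heE.2
        rw [mem_insert, mem_singleton, not_or] at heac
        have := hK.mem_of_adj hvK (mem_erase.2 ⟨heac.2, mem_erase.2 ⟨heac.1, hES he⟩⟩) hev.symm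
        exact (mem_sdiff.1 heE.1).2 this
      · refine hv.2 (hE.mem_of_adj he (mem_sdiff.2 ⟨mem_sdiff.2 ⟨hv.1, hvK⟩, ?_⟩) hev)
        rw [mem_insert, mem_singleton, not_or]
        exact hvac

/-- propagation -/
lemma G2_step {S : Finset V} {a c c' : V} (hS : NC G S) (h3 : 3 ≤ S.card) (ha : a ∈ S)
    (hc : c ∈ S) (hc' : c' ∈ S) (hac : a ≠ c) (hac' : a ≠ c') (hcc' : G.Adj c c')
    (h : ∃ K ⊆ S, a ∉ K ∧ c ∉ K ∧ Conn G K ∧ (∃ k ∈ K, G.Adj a k) ∧ (∃ k ∈ K, G.Adj c k) ∧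
      Conn G (S \ K)) :
    ∃ K ⊆ S, a ∉ K ∧ c' ∉ K ∧ Conn G K ∧ (∃ k ∈ K, G.Adj a k) ∧ (∃ k ∈ K, G.Adj c' k) ∧
      Conn G (S \ K) := by
  obtain ⟨K, hKS, haK, hcK, hK, ⟨k, hk, hak⟩, ⟨l, hl, hcl⟩, hM⟩ := h
  have hcM : c ∈ S \ K := mem_sdiff.2 ⟨hc, hcK⟩
  have haM : a ∈ S \ K := mem_sdiff.2 ⟨ha, haK⟩
  by_cases hc'K : c' ∈ K
  · by_cases hkc' : k = c'
    · exact G2_base hS h3 ha hc' hac' (hkc' ▸ hak)
    · obtain ⟨E, hE, hkE⟩ := exists_comp (G := G) (mem_erase.2 ⟨hkc', hk⟩)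
      have hEK : E ⊆ K := hE.subset_erase
      refine ⟨E, hEK.trans hKS, fun h => haK (hEK h), hE.notMem_erase, hE.conn, ⟨k, hkE, hak⟩,
        ?_, ?_⟩
      · obtain ⟨d, hd, hdc⟩ := hE.adj_erase hK hc'K
        exact ⟨d, hd, hdc.symm⟩
      · have h1 := hM.union (hE.conn_sdiff hK hc'K)
          (Or.inl ⟨c, hcM, c', mem_sdiff.2 ⟨hc'K, hE.notMem_erase⟩, hcc'⟩)
        have h2 : S \ K ∪ K \ E = S \ E := by
          ext v
          simp only [mem_union, mem_sdiff]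
          constructor
          · rintro (h | h)
            · exact ⟨h.1, fun hh => h.2 (hEK hh)⟩
            · exact ⟨hKS h.1, h.2⟩
          · rintro ⟨h, h'⟩
            by_cases hv : v ∈ K
            · exact Or.inr ⟨hv, h'⟩
            · exact Or.inl ⟨h, hv⟩
        rwa [h2] at h1
  · have hc'M : c' ∈ S \ K := mem_sdiff.2 ⟨hc', hc'K⟩
    have hne : c' ≠ c := hcc'.ne'
    obtain ⟨A, hA, haA⟩ := exists_comp (G := G) (mem_erase.2 ⟨hac, haM⟩)
    have hAM : A ⊆ S \ K := hA.subset_erase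
    by_cases hc'A : c' ∈ A
    · refine ⟨K ∪ (S \ K) \ A, union_subset hKS (sdiff_subset.trans sdiff_subset), ?_, ?_, ?_,
        ⟨k, mem_union_left _ hk, hak⟩, ⟨c, mem_union_right _ (mem_sdiff.2 ⟨hcM,
          hA.notMem_erase⟩), hcc'.symm⟩, ?_⟩
      · rw [mem_union, mem_sdiff, not_or]
        exact ⟨haK, fun h => h.2 haA⟩
      · rw [mem_union, mem_sdiff, not_or]
        exact ⟨hc'K, fun h => h.2 hc'A⟩
      · exact hK.union (hA.conn_sdiff hM hcM)
          (Or.inl ⟨l, hl, c, mem_sdiff.2 ⟨hcM, hA.notMem_erase⟩, hcl.symm⟩)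
      · have : S \ (K ∪ (S \ K) \ A) = A := by
          ext v
          simp only [mem_union, mem_sdiff]
          constructor
          · rintro ⟨h, h'⟩
            by_contra hv
            refine h' ?_
            by_cases hvK : v ∈ K
            · exact Or.inl hvK
            · exact Or.inr ⟨⟨h, hvK⟩, hv⟩
          · intro h
            have := mem_sdiff.1 (hAM h)
            refine ⟨this.1, ?_⟩
            rintro (h1 | h1)
            · exact this.2 h1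
            · exact h1.2 h
        rw [this]
        exact hA.conn
    · obtain ⟨C, hC, hc'C⟩ := exists_comp (G := G) (mem_erase.2 ⟨hne, hc'M⟩)
      have hCM : C ⊆ S \ K := hC.subset_erase
      have haC : a ∉ C := fun h => hc'A ((hA.eq_of_mem hC haA h) ▸ hc'C)
      by_cases hKc' : ∃ k ∈ K, G.Adj c' k
      · exact ⟨K, hKS, haK, hc'K, hK, ⟨k, hk, hak⟩, hKc', hM⟩
      · obtain ⟨q, hq, v, hv, hvC, hvc, hqv⟩ := hS.exists_adj (hCM.trans sdiff_subset)
          hC.nonempty hC.notMem_erase ⟨a, ha, haC, hac⟩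
        have hvK : v ∈ K := by
          by_contra hvK
          exact hvC (hC.mem_of_adj hq (mem_erase.2 ⟨hvc, mem_sdiff.2 ⟨hv, hvK⟩⟩) hqv)
        have hqc' : q ≠ c' := by
          rintro rfl
          exact hKc' ⟨v, hvK, hqv⟩
        obtain ⟨E, hE, hqE⟩ := exists_comp (G := G) (mem_erase.2 ⟨hqc', hq⟩)
        have hEC : E ⊆ C := hE.subset_erase
        refine ⟨K ∪ E, union_subset hKS (hEC.trans (hCM.trans sdiff_subset)), ?_, ?_,
          hK.union hE.conn (Or.inl ⟨v, hvK, q, hqE, hqv.symm⟩), ⟨k, mem_union_left _ hk, hak⟩,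
          ?_, ?_⟩
        · rw [mem_union, not_or]
          exact ⟨haK, fun h => haC (hEC h)⟩
        · rw [mem_union, not_or]
          exact ⟨hc'K, hE.notMem_erase⟩
        · obtain ⟨d, hd, hdc⟩ := hE.adj_erase hC.conn hc'C
          exact ⟨d, mem_union_right _ hd, hdc.symm⟩
        · have h1 := (hC.conn_sdiff hM hcM).union (hE.conn_sdiff hC.conn hc'C)
            (Or.inl ⟨c, mem_sdiff.2 ⟨hcM, hC.notMem_erase⟩, c',
              mem_sdiff.2 ⟨hc'C, hE.notMem_erase⟩, hcc'⟩)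
          have h2 : (S \ K) \ C ∪ C \ E = S \ (K ∪ E) := by
            ext v
            simp only [mem_union, mem_sdiff, not_or]
            constructor
            · rintro (h | h)
              · exact ⟨h.1.1, h.1.2, fun hh => h.2 (hEC hh)⟩
              · have := mem_sdiff.1 (hCM h.1)
                exact ⟨this.1, this.2, h.2⟩
            · rintro ⟨h, h', h''⟩
              by_cases hv : v ∈ C
              · exact Or.inr ⟨hv, h''⟩
              · exact Or.inl ⟨⟨h, h'⟩, hv⟩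
          rwa [h2] at h1

/-- (3.1) -/
theorem st_G2 : ST_G2 := by
  intro V _ G S a c hS h3 ha hc hac
  classical
  let B := (S.erase a).filter (fun c => ∃ K ⊆ S, a ∉ K ∧ c ∉ K ∧ Conn G K ∧
    (∃ k ∈ K, G.Adj a k) ∧ (∃ k ∈ K, G.Adj c k) ∧ Conn G (S \ K))
  have hBsub : B ⊆ S.erase a := filter_subset _ _
  have hBne : B.Nonempty := by
    obtain ⟨x, hx, v, hv, hxv⟩ := hS.conn.2 {a} (singleton_subset_iff.2 ha)
      (singleton_nonempty a) (fun h => by
        rw [← h] at hc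
        exact hac (mem_singleton.1 hc).symm)
    rw [mem_singleton] at hx
    subst hx
    rw [mem_sdiff, mem_singleton] at hv
    exact ⟨v, mem_filter.2 ⟨mem_erase.2 ⟨hv.2, hv.1⟩,
      G2_base hS h3 ha hv.1 (fun h => hv.2 h.symm) hxv⟩⟩
  have hB : B = S.erase a := by
    by_contra hne
    obtain ⟨x, hx, y, hy, hxy⟩ := (hS.2 a ha ⟨c, mem_erase.2 ⟨hac.symm, hc⟩⟩).2 B hBsub hBne hne
    have hx' := mem_filter.1 hx
    have hxS := mem_erase.1 hx'.1
    rw [mem_sdiff] at hy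
    have hyS := mem_erase.1 hy.1
    exact hy.2 (mem_filter.2 ⟨hy.1, G2_step hS h3 ha hxS.2 hyS.2 hxS.1.symm hyS.1.symm hxy hx'.2⟩)
  have : c ∈ B := hB ▸ mem_erase.2 ⟨hac.symm, hc⟩
  exact (mem_filter.1 this).2

/-- (3.2) -/
theorem st_F0 (h : ST_G2) (h3 : ST_T3) (h5 : ST_T5) : ST_F0 := by
  intro V _ G S a c hS hcard ha hc hac
  obtain ⟨K₀, hK₀S, haK₀, hcK₀, hK₀, ⟨h₂, hh₂, hah₂⟩, ⟨h₁, hh₁, hch₁⟩, hM⟩ :=
    h V G S a c hS hcard ha hc hac
  obtain ⟨P, hPK₀, hP⟩ := h3 V G K₀ h₂ h₁ hK₀ hh₂ hh₁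
  obtain ⟨K, hPK, hKK₀, hK, hE⟩ := h5 V G K₀ P h₂ h₁ hK₀ hPK₀ hP
  refine ⟨K, h₁, h₂, hKK₀.trans hK₀S, fun h => haK₀ (hKK₀ h), fun h => hcK₀ (hKK₀ h), hah₂, hch₁,
    hK, ?_⟩
  refine conn_of_attach hM (sdiff_subset_sdiff subset_rfl hKK₀) (fun E hEc => ?_)
  have heq : (S \ K) \ (S \ K₀) = K₀ \ K := by
    ext v
    simp only [mem_sdiff, not_and, not_not]
    constructor
    · rintro ⟨h, h'⟩
      exact ⟨h' h.1, h.2⟩
    · rintro ⟨h, h'⟩
      exact ⟨⟨hK₀S h, h'⟩, fun _ => h⟩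
  rw [heq] at hEc
  obtain ⟨k, hk, -, hk'⟩ := hE E hEc
  have hEK₀ : E ⊆ K₀ := hEc.subset.trans sdiff_subset
  have hkE : k ∉ E := fun h => (mem_sdiff.1 (hEc.subset h)).2 hk
  obtain ⟨e, he, v, hv, hvE, hvk, hev⟩ := hS.exists_adj (hEK₀.trans hK₀S) hEc.nonempty hkE
    ⟨a, ha, fun h => haK₀ (hEK₀ h), fun h => haK₀ (h ▸ hKK₀ hk)⟩
  refine ⟨e, he, v, mem_sdiff.2 ⟨hv, fun hvK₀ => ?_⟩, hev⟩
  by_cases hvK : v ∈ K
  · exact hvk (hk' e he v hvK hev)
  · exact hvE (hEc.mem_of_adj he (mem_sdiff.2 ⟨hvK₀, hvK⟩) hev)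

end TwoWalk
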