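import Pool.Agent.Helper39.TW.Lib

/-! `(1a)`: splitting at a cut vertex. -/

namespace TwoWalk

open Finset

variable {V : Type} [DecidableEq V] {G : SimpleGraph V}

/-- one side of the cut vertex is a chain -/
lemma SPLIT_half {S D : Finset V} {x y z : V} (hS : Ch G S x y) (hz : z ∈ S)
    (hD : IsComp G (S.erase z) D) (hx : x ∈ D) (hy : y ∉ D) : Ch G (insert z D) x z := by
  obtain ⟨d, hd, hdz⟩ := hD.adj_erase hS.conn hz
  refine ⟨hD.conn.insert hd hdz, mem_insert_of_mem hx, mem_insert_self _ _, fun w hw F hF => ?_⟩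
  by_contra hcon
  rw [not_or] at hcon
  have hFD : F ⊆ D := by
    intro v hv
    rcases mem_insert.1 (hF.subset_erase hv) with h | h
    · exact absurd (h ▸ hv) hcon.2
    · exact h
  rcases mem_insert.1 hw with rfl | hwD
  · rw [erase_insert hD.notMem_erase] at hF
    have := hF.eq_of_conn hD.conn
    exact hcon.1 (this ▸ hx)
  · have hzw : z ≠ w := fun h => hD.notMem_erase (h ▸ hwD)
    have hFw : w ∉ F := hF.notMem_erase
    have hcomp : IsComp G (S.erase w) F := by
      refine ⟨fun v hv => mem_erase.2 ⟨fun h => hFw (h ▸ hv), hD.subset_erase (hFD hv)⟩,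
        hF.conn, ?_⟩
      rintro ⟨e, he, v, hv, hev⟩
      rw [mem_sdiff, mem_erase] at hv
      by_cases hvz : v = z
      · subst hvz
        exact hcon.2 (hF.mem_of_adj he (mem_erase.2 ⟨hzw, mem_insert_self _ _⟩) hev)
      · have hvD : v ∈ D := hD.mem_of_adj (hFD he) (mem_erase.2 ⟨hvz, hv.1.2⟩) hev
        exact hv.2 (hF.mem_of_adj he (mem_erase.2 ⟨hv.1.1, mem_insert_of_mem hvD⟩) hev)
    rcases hS.comp_mem (hD.subset_erase hwD) hcomp with h | h
    · exact hcon.1 h
    · exact hy (hFD h)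

/-- (1a) -/
theorem st_SPLIT : ST_SPLIT := by
  intro V _ _ G S x y h3 hSc hS hNC
  have hex : ∃ z ∈ S, (S.erase z).Nonempty ∧ ¬ Conn G (S.erase z) := by
    by_contra hcon
    push Not at hcon
    exact hNC ⟨hS.conn, hcon⟩
  obtain ⟨z, hz, hne, hnc⟩ := hex
  have hxy : x ≠ y := by
    rintro rfl
    have := hS.eq_singleton
    rw [this] at hz hne
    rw [mem_singleton] at hz
    subst hz
    simp at hne
  have hxz : x ≠ z := by
    rintro rfl
    exact hnc (hS.conn_erase_left hxy)
  have hyz : y ≠ z := by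
    rintro rfl
    exact hnc (hS.conn_erase_right hxy)
  obtain ⟨D, hD, hxD⟩ := exists_comp (G := G) (mem_erase.2 ⟨hxz, hS.left_mem⟩)
  obtain ⟨F, hF, hyF⟩ := exists_comp (G := G) (mem_erase.2 ⟨hyz, hS.right_mem⟩)
  have hyD : y ∉ D := by
    intro hyD
    refine hnc (conn_of_comp_mem (y := y) hne (fun E hE => ?_))
    rcases hS.comp_mem hz hE with h | h
    · rwa [hE.eq_of_mem hD h hxD]
    · exact h
  have hxF : x ∉ F := fun hxF => hyD ((hF.eq_of_mem hD hxF hxD) ▸ hyF)
  have hdisj : ∀ v, v ∈ D → v ∉ F := fun v hv hv' => hyD ((hF.eq_of_mem hD hv' hv) ▸ hyF)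
  have hcov : ∀ v ∈ S, v ≠ z → v ∈ D ∨ v ∈ F := by
    intro v hv hvz
    obtain ⟨E, hE, hvE⟩ := exists_comp (G := G) (mem_erase.2 ⟨hvz, hv⟩)
    rcases hS.comp_mem hz hE with h | h
    · exact Or.inl ((hE.eq_of_mem hD h hxD) ▸ hvE)
    · exact Or.inr ((hE.eq_of_mem hF h hyF) ▸ hvE)
  have hDS : D ⊆ S := hD.subset_erase
  have hFS : F ⊆ S := hF.subset_erase
  have hzD : z ∉ D := hD.notMem_erase
  have hzF : z ∉ F := hF.notMem_erase
  have hcompl1 : (insert z D)ᶜ = Sᶜ ∪ F := by
    ext v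
    simp only [mem_compl, mem_insert, mem_union, not_or]
    constructor
    · rintro ⟨h1, h2⟩
      by_cases hv : v ∈ S
      · rcases hcov v hv h1 with h | h
        · exact absurd h h2
        · exact Or.inr h
      · exact Or.inl hv
    · rintro (h | h)
      · exact ⟨fun h' => h (h' ▸ hz), fun h' => h (hDS h')⟩
      · exact ⟨fun h' => hzF (h' ▸ h), fun h' => hdisj v h' h⟩
  have hcompl2 : (insert z F)ᶜ = Sᶜ ∪ D := by
    ext v
    simp only [mem_compl, mem_insert, mem_union, not_or]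
    constructor
    · rintro ⟨h1, h2⟩
      by_cases hv : v ∈ S
      · rcases hcov v hv h1 with h | h
        · exact Or.inr h
        · exact absurd h h2
      · exact Or.inl hv
    · rintro (h | h)
      · exact ⟨fun h' => h (h' ▸ hz), fun h' => h (hFS h')⟩
      · exact ⟨fun h' => hzD (h' ▸ h), fun h' => hdisj v h h'⟩
  have hrim : ∀ E, IsComp G (S.erase z) E → Conn G (Sᶜ ∪ E) := by
    intro E hE
    obtain ⟨d, hd, w, hw, hdw⟩ := h3.comp_rim hSc.1 hz hE
    exact hSc.union hE.conn (Or.inl ⟨w, mem_compl.2 hw, d, hd, hdw.symm⟩)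
  refine ⟨z, insert z D, insert z F, ?_, ?_, mem_insert_of_mem hxD, hxz, mem_insert_of_mem hyF,
    hyz, SPLIT_half hS hz hD hxD hyD, (SPLIT_half hS.symm hz hF hyF hxF).symm, ?_, ?_, ?_, ?_⟩
  · ext v
    simp only [mem_union, mem_insert]
    constructor
    · rintro ((rfl | h) | (rfl | h))
      · exact hz
      · exact hDS h
      · exact hz
      · exact hFS h
    · intro hv
      by_cases hvz : v = z
      · exact Or.inl (Or.inl hvz)
      · rcases hcov v hv hvz with h | h
        · exact Or.inl (Or.inr h)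
        · exact Or.inr (Or.inr h)
  · ext v
    simp only [mem_inter, mem_insert, mem_singleton]
    constructor
    · rintro ⟨h1 | h1, h2 | h2⟩
      · exact h1
      · exact h1
      · exact h2
      · exact absurd h2 (hdisj v h1)
    · rintro rfl
      exact ⟨Or.inl rfl, Or.inl rfl⟩
  · rw [hcompl1]
    exact hrim F hF
  · rw [hcompl2]
    exact hrim D hD
  · obtain ⟨d, hd, hdz⟩ := hF.adj_erase hS.conn hz
    refine ⟨mem_insert_self _ _, d, ?_, hdz.symm⟩
    rw [mem_insert, not_or]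
    exact ⟨fun h => hzF (h ▸ hd), fun h => hdisj d h hd⟩
  · obtain ⟨d, hd, hdz⟩ := hD.adj_erase hS.conn hz
    refine ⟨mem_insert_self _ _, d, ?_, hdz.symm⟩
    rw [mem_insert, not_or]
    exact ⟨fun h => hzD (h ▸ hd), fun h => hdisj d hd h⟩

end TwoWalk
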